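import Pool.Agent.helper72.UB.HUR
import Pool.Agent.helper20.UB.FIN
import Pool.Agent.helper31.UB.PAI
import Pool.Agent.helper67.UB.DR
import Pool.Agent.helper19.UB.RD
import Pool.Agent.helper52.UB.RC
import Pool.Agent.helper18.UB.EUC
import Pool.Agent.helper93.UB.INK
import Pool.Agent.helper98.UB.PRI
import Pool.Agent.helper51.UB.EMB
import Pool.Agent.helper11.UB.CEN
import Pool.Agent.helper34.UB.INH
import Pool.Agent.helper33.UB.REC
import Pool.Agent.helper24.UB.DQ
import Pool.Agent.helper21.UB.CLN

/-! # MP_6cfeb2_co: the unit distance question for dense sets of lattice points, sums of three squares, class numbers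

`Q1 → DenseQ1`: the conjectured bound implies the same bound for dense subsets of cubes in `ℤ³` (distance `√k`, all `k`).
`DenseQ1 ↔ R3Bound`: this is equivalent to `r₃(k) ≤ C √k log log k`.
`R3Bound → ClassBound`: and this implies `h ≤ C √k log log k` for `ℚ(√-k)`, `k` squarefree and a sum of three squares. -/

set_option autoImplicit false

namespace Pool.Agent.Results.MP_6cfeb2_co.LatticeEquivalence

open Pool.Agent.helper21.UB

/-- The conjectured upper bound for unit distances in three-space implies the same bound for dense sets of lattice points, this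
bound is equivalent to a bound for the number of representations as a sum of three squares, and the latter implies
a bound for class numbers. -/
theorem result : (Q1 → DenseQ1) ∧ (DenseQ1 ↔ R3Bound) ∧ (R3Bound → ClassBound) :=
  have hFIN : FIN_stmt := FIN
  have hHUR : HUR_stmt := HUR
  have hCLN : CLN_stmt := CLN hHUR (PRI hHUR EUC) EMB CEN INH INK (REC hHUR) hFIN
  ⟨DQ, ⟨DR hFIN (PAI hFIN), RD hFIN⟩, RC hCLN⟩

end Pool.Agent.Results.MP_6cfeb2_co.LatticeEquivalence
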