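import Pool.Agent.helper21.UD.Final

/-! # MP_6cfeb2_co: unit distances in sets covered by few translates of a three-dimensional progression

`P ⊆ ℝ³` is covered by `m` translates of the progression `{∑ aᵢ vᵢ : |aᵢ| ≤ Nᵢ}`, `V = ∏ (2 Nᵢ + 1)`. The number of pairs
at distance `1` between an arbitrary finite set `A` and `P` (in particular `A = P`) is at most
`m |A| V^(1/3 + C / log log V)`, and at most `C m |A| V^(1/3)` when the Gram matrix of `v₀, v₁, v₂` is not a real multiple of a
rational matrix. -/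

namespace Pool.Agent.Results.MP_6cfeb2_co.ProgressionSets

open Pool.Agent.helper21.UD

/-- Unit distances in sets covered by `m` translates of a three-dimensional progression of size `V`:
at most `m |A| V^(1/3 + C / log log V)`, and at most `C m |A| V^(1/3)` if the progression is irrational. -/
theorem result : ∃ C : ℝ, 0 < C ∧
    ∀ (v : Fin 3 → EuclideanSpace ℝ (Fin 3)) (N : Fin 3 → ℕ), 3 ≤ vol N →
    ∀ (m : ℕ) (t : Fin m → EuclideanSpace ℝ (Fin 3)) (A P : Finset (EuclideanSpace ℝ (Fin 3))),
    (∀ p ∈ P, ∃ j, p - t j ∈ Prog v N) →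
    (((A ×ˢ P).filter (fun z => dist z.1 z.2 = 1)).card : ℝ) ≤
      m * A.card * (vol N : ℝ) ^ (1 / 3 + C / Real.log (Real.log (vol N))) ∧
    (¬ RatGram v → (((A ×ˢ P).filter (fun z => dist z.1 z.2 = 1)).card : ℝ) ≤
      C * (m * A.card * (vol N : ℝ) ^ (1 / 3 : ℝ))) :=
  unit_dist

end Pool.Agent.Results.MP_6cfeb2_co.ProgressionSets
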